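import Pool.Agent.helper11.OFP.Spec

/-!
# Project ofp (MP_90e158_lc), row ofp:XCI
-/

set_option autoImplicit false

open MeasureTheory

namespace Pool.Agent.OFP

open Pool.Agent.LOF

theorem XCI_pth {c c' : ℕ → Bool} (i : ℕ) (h : ∀ j < i, c j = c' j) : pth c i = pth c' i := by
  induction i with
  | zero => rfl
  | succ i ih =>
    show 4 * pth c i + (if c i = true then 2 else 1) = 4 * pth c' i + (if c' i = true then 2 else 1)
    rw [ih fun j hj => h j (Nat.lt_succ_of_lt hj), h i (Nat.lt_succ_self i)]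

theorem XCI_dec (i : ℕ) : dec (2 * Nat.pair i 0) = (i, 0, true) := by
  unfold dec
  have h1 : 2 * Nat.pair i 0 / 2 = Nat.pair i 0 := Nat.mul_div_cancel_left _ (by norm_num)
  have h2 : 2 * Nat.pair i 0 % 2 = 0 := Nat.mul_mod_right 2 _
  rw [h1, h2, Nat.unpair_pair]
  rfl

theorem XCI_key {q : ℕ → ℝ} (hq : 0 < q 0) {c c' : ℕ → Bool} (i : ℕ) (h : ∀ j < i, c j = c' j)
    (h1 : c i = true) (h2 : c' i = false) : seq q c ≠ seq q c' := by
  intro heq
  have h3 := congrFun heq (2 * Nat.pair i 0)
  unfold seq at h3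
  rw [XCI_dec] at h3
  unfold pnt at h3
  have e1 : num c i true = 2 * pth c i := by
    unfold num
    rw [h1]
    rfl
  have e2 : num c' i true = 4 * pth c' i := by
    unfold num
    rw [h2]
    rfl
  have e3 : lev c i true = 2 * i + 1 := by
    unfold lev
    rw [h1]
    rfl
  have e4 : lev c' i true = 2 * i + 2 := by
    unfold lev
    rw [h2]
    rfl
  simp only at h3
  rw [e1, e2, e3, e4, ← XCI_pth i h, div_eq_div_iff (by positivity) (by positivity)] at h3
  push_cast at h3
  have hp : (0 : ℝ) < 2 ^ (2 * i + 1) := by positivity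
  have h4 : (2 : ℝ) ^ (2 * i + 2) = 2 * 2 ^ (2 * i + 1) := by ring
  rw [h4] at h3
  have h5 : q 0 * 2 ^ (2 * i + 1) = 0 := by linear_combination h3
  exact absurd h5 (mul_pos hq hp).ne'

theorem XCI : XCI_stmt := by
  intro q hq c c' heq
  by_contra hne
  have hex : ∃ i, c i ≠ c' i := by
    by_contra hall
    apply hne
    funext i
    by_contra hi
    exact hall ⟨i, hi⟩
  classical
  have h0 := Nat.find_spec hex
  have hlt : ∀ j < Nat.find hex, c j = c' j := by
    intro j hj
    by_contra hc
    exact Nat.find_min hex hj hc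
  have hq0 : 0 < q 0 := (hq.1 0).1
  rcases hc : c (Nat.find hex) with _ | _
  · rcases hc' : c' (Nat.find hex) with _ | _
    · exact h0 (hc.trans hc'.symm)
    · exact XCI_key hq0 (Nat.find hex) (fun j hj => (hlt j hj).symm) hc' hc heq.symm
  · rcases hc' : c' (Nat.find hex) with _ | _
    · exact XCI_key hq0 (Nat.find hex) hlt hc hc' heq
    · exact h0 (hc.trans hc'.symm)

end Pool.Agent.OFP
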